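import Mathlib

/-!
# MP_def5ca_co: polyhedral manifolds all of whose faces are `p`-gons. Definitions
-/

set_option autoImplicit false

open scoped symmDiff

namespace Pool.Agent.H54.PM

/-! ### Polyhedral manifolds -/

section Geo

variable {E : Type} [NormedAddCommGroup E] [NormedSpace ℝ E]

/-- the convex polygon with the vertex set `A` -/
def body (A : Finset E) : Set E := convexHull ℝ (A : Set E)

/-- `A` is the set of the vertices of a convex `k`-gon: `k ≥ 3` points in convex position whose
affine span is a plane -/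
structure IsGon (k : ℕ) (A : Finset E) : Prop where
  three : 3 ≤ k
  card : A.card = k
  plane : Module.finrank ℝ (vectorSpan ℝ (A : Set E)) = 2
  convex : ∀ a ∈ A, a ∉ convexHull ℝ ((A : Set E) \ {a})

/-- `u` and `v` are the ends of an edge of the convex polygon with the vertex set `A`: there is a
linear function which attains its maximum on `A` exactly in `u` and `v` -/
def IsEdge (A : Finset E) (u v : E) : Prop :=
  u ∈ A ∧ v ∈ A ∧ u ≠ v ∧ ∃ f : E →L[ℝ] ℝ, f u = f v ∧ ∀ a ∈ A, a ≠ u → a ≠ v → f a < f u

/-- the union of the polygons -/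
def Un (F : Finset (Finset E)) : Set E := ⋃ A ∈ F, body A

/-- Polyhedral manifolds: a finite nonempty set of convex polygons (given by their vertex sets) any
two of which are disjoint, or meet in a single vertex of both, or meet in a single edge of both, no
two polygons with a common edge lie in a common plane, and the union is a topological 2-manifold
(without boundary; it is compact, being a finite union of polygons). -/
structure IsPM (F : Finset (Finset E)) : Prop where
  ne : F.Nonempty
  gon : ∀ A ∈ F, ∃ k, IsGon k A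
  cplx : ∀ A ∈ F, ∀ B ∈ F, A ≠ B → body A ∩ body B = ∅ ∨
    (∃ v, v ∈ A ∧ v ∈ B ∧ body A ∩ body B = {v}) ∨
    ∃ u v, IsEdge A u v ∧ IsEdge B u v ∧ body A ∩ body B = segment ℝ u v
  bend : ∀ A ∈ F, ∀ B ∈ F, A ≠ B → ∀ u v, IsEdge A u v → IsEdge B u v →
    affineSpan ℝ (A : Set E) ≠ affineSpan ℝ (B : Set E)
  mfd : ∀ x : Un F, ∃ e : OpenPartialHomeomorph (Un F) (EuclideanSpace ℝ (Fin 2)), x ∈ e.source

/-- the vertices -/
def ver (F : Finset (Finset E)) : Set E := {v | ∃ A ∈ F, v ∈ A}

/-- the edges -/
def edg (F : Finset (Finset E)) : Set (Sym2 E) := {e | ∃ A ∈ F, ∃ u v, IsEdge A u v ∧ e = s(u, v)}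

/-- the Euler characteristic -/
noncomputable def chi (F : Finset (Finset E)) : ℤ :=
  ((ver F).ncard : ℤ) - (edg F).ncard + F.card

/-- Orientability: the boundaries of the polygons can be directed (`D A u v`: in `A` the edge is
directed from `u` to `v`) such that the directions of the edges of a polygon fit together, and every
common edge of two polygons has opposite directions in them. -/
def Ori (F : Finset (Finset E)) : Prop := ∃ D : Finset E → E → E → Prop,
  (∀ A ∈ F, ∀ u v, IsEdge A u v → (D A u v ↔ ¬ D A v u)) ∧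
  (∀ A ∈ F, ∀ u v w, IsEdge A u v → IsEdge A v w → u ≠ w → (D A u v ↔ D A v w)) ∧
  ∀ A ∈ F, ∀ B ∈ F, A ≠ B → ∀ u v, IsEdge A u v → IsEdge B u v → (D A u v ↔ D B v u)

end Geo

/-! ### Sets of words -/

section Words

variable {p : ℕ} [NeZero p]

/-- words: one letter for every side of the `p`-gon (the sides are the elements of `Fin p`, with
cyclic addition) -/
abbrev Wd (p : ℕ) : Type := Fin p → ℕ

/-- `g` and `h` agree except possibly at the place `i` -/
def ag (i : Fin p) (g h : Wd p) : Prop := ∀ t, t ≠ i → g t = h t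

/-- `g` and `h` agree except possibly at the places `i` and `i + 1` -/
def ag2 (i : Fin p) (g h : Wd p) : Prop := ∀ t, t ≠ i → t ≠ i + 1 → g t = h t

/-- moves inside the set `W` -/
def mv (W : Finset (Wd p)) (g h : Wd p) : Prop := h ∈ W ∧ ∃ i, ag i g h

/-- moves in the directions `i` and `i + 1` inside the set `W`, which avoid `f` -/
def st (W : Finset (Wd p)) (i : Fin p) (f g h : Wd p) : Prop :=
  h ∈ W ∧ h ≠ f ∧ (ag i g h ∨ ag (i + 1) g h)

/-- every line parallel to an axis meets `W` in no word or in two words -/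
def Lin (W : Finset (Wd p)) : Prop :=
  ∀ i, ∀ g ∈ W, ∃ h ∈ W, h ≠ g ∧ ag i g h ∧ ∀ k ∈ W, ag i g k → k = g ∨ k = h

/-- the words of `W` in the plane through `k` parallel to the directions `i` and `i + 1` stay
connected when one of them is removed -/
def Pla (W : Finset (Wd p)) (i : Fin p) (k : Wd p) : Prop :=
  ∀ f ∈ W, ∀ g ∈ W, ∀ h ∈ W, ag2 i k f → ag2 i k g → ag2 i k h → g ≠ f → h ≠ f →
    Relation.ReflTransGen (st W i f) g h

/-- the sets of words which belong to surfaces -/
structure Good (W : Finset (Wd p)) : Prop where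
  ne : W.Nonempty
  line : Lin W
  plane : ∀ i k, Pla W i k
  conn : ∀ g ∈ W, ∀ h ∈ W, Relation.ReflTransGen (mv W) g h

/-- a colouring with two colours in which all neighbours in `S` have different colours -/
def Bip (S : Finset (Wd p)) : Prop :=
  ∃ c : Wd p → Bool, ∀ g ∈ S, ∀ h ∈ S, g ≠ h → (∃ i, ag i g h) → c g ≠ c h

/-- the words with one place erased, and with two places erased -/
def rs (i : Fin p) (g : Wd p) : Wd p := fun t => if t = i then 0 else g t
def rs2 (i : Fin p) (g : Wd p) : Wd p := fun t => if t = i ∨ t = i + 1 then 0 else g t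

/-- the number of the vertices, the number of the edges, the Euler characteristic -/
def nV (W : Finset (Wd p)) : ℕ := ∑ i : Fin p, (W.image (rs2 i)).card
def nE (W : Finset (Wd p)) : ℕ := ∑ i : Fin p, (W.image (rs i)).card
def cw (W : Finset (Wd p)) : ℤ := (nV W : ℤ) - nE W + W.card

/-- boxes -/
def cube (a b : Wd p) : Finset (Wd p) := Fintype.piFinset fun i => {a i, b i}

/-- the products of a cycle of length `2 m` in the directions `0`, `2` and a cube -/
def RR (p : ℕ) [NeZero p] (m : ℕ) : Finset (Wd p) :=
  (Fintype.piFinset fun i : Fin p => if i.val = 0 ∨ i.val = 2 then Finset.range m else {0, 1}).filter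
    fun g => g 0 = g (Fin.ofNat p 2) ∨ g 0 = (g (Fin.ofNat p 2) + 1) % m

end Words

/-! ### The polygon and the faces -/

section Face

variable {p : ℕ}

/-- the vertices of the `p`-gon `P`: points of a parabola -/
def wv (t : Fin p) : ℝ × ℝ := (t.val, (t.val : ℝ) ^ 2)

/-- the `p`-gon `P` -/
def PP (p : ℕ) : Set (ℝ × ℝ) := convexHull ℝ (Set.range (wv (p := p)))

/-- the linear function which vanishes on the side `i`, the side between the vertices `i` and `i + 1` -/
def el (i : Fin p) (x : ℝ × ℝ) : ℝ :=
  if i.val + 1 < p then x.2 - (2 * i.val + 1) * x.1 + i.val * (i.val + 1)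
  else ((p : ℝ) - 1) * x.1 - x.2

/-- the space -/
abbrev Sp (p q : ℕ) : Type := (Fin 2 ⊕ (Fin p × Fin q)) → ℝ

/-- the point of the face `g` which belongs to `x ∈ P` -/
def pt (q : ℕ) (g : Fin p → ℕ) (x : ℝ × ℝ) : Sp p q :=
  Sum.elim (fun k => if k = 0 then x.1 else x.2) (fun a => if g a.1 = a.2.val then el a.1 x else 0)

open Classical in
/-- the vertices of the face `g` -/
noncomputable def fc (q : ℕ) (g : Fin p → ℕ) : Finset (Sp p q) :=
  Finset.univ.image fun t : Fin p => pt q g (wv t)

open Classical in
/-- the faces -/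
noncomputable def fam (q : ℕ) (W : Finset (Fin p → ℕ)) : Finset (Finset (Sp p q)) := W.image (fc q)

/-- the part of the surface near the vertex which belongs to the words that agree with `g` outside
`i`, `i + 1` -/
def Nb (q : ℕ) [NeZero p] (W : Finset (Fin p → ℕ)) (i : Fin p) (g : Fin p → ℕ) : Set (Sp p q) :=
  {z | ∃ h ∈ W, ag2 i g h ∧ ∃ x ∈ PP p, (∀ j, j ≠ i → j ≠ i + 1 → 0 < el j x) ∧ z = pt q h x}

/-- the cone over a cycle with `d` vertices -/
def Fan (d : ℕ) [NeZero d] : Set (Fin d → ℝ) :=
  {a | (∀ k, 0 ≤ a k) ∧ ∃ k : Fin d, ∀ j, j ≠ k → j ≠ k + 1 → a j = 0}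

end Face

end Pool.Agent.H54.PM
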