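import Pool.Agent.H77.PM.Targets

/-!
# The codes with finitely many distances
-/

set_option autoImplicit false

open Set Filter Topology

namespace Pool.Agent.H54.PM

open Pool.Agent.H77.PM

/-- A copy of the natural numbers without instances. -/
structure MetPt where
  n : ℕ

/-- The metric of a code. -/
def metMetric {ι : Type} {ar : ι → ℕ} {Z : Type} (x : Code ι ar Z) (h0 : ∀ i, x.1 i i = 0)
    (h1 : ∀ i j, x.1 i j = 0 → i = j) (h2 : ∀ i j, x.1 i j = x.1 j i)
    (h3 : ∀ i j k, x.1 i k ≤ x.1 i j + x.1 j k) : MetricSpace MetPt where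
  dist a b := x.1 a.n b.n
  dist_self a := h0 a.n
  dist_comm a b := h2 a.n b.n
  dist_triangle a b c := h3 a.n b.n c.n
  eq_of_dist_eq_zero := by
    intro a b h
    cases a; cases b
    exact congrArg MetPt.mk (h1 _ _ h)

theorem met_eps {D : Set ℝ} (hD : D.Finite) : ∃ ε : ℝ, 0 < ε ∧ ∀ d ∈ D, 0 < d → ε ≤ d := by
  by_cases hne : (D ∩ Ioi 0).Nonempty
  · obtain ⟨e, he, hmin⟩ := Set.exists_min_image (D ∩ Ioi 0) id (hD.subset inter_subset_left) hne
    exact ⟨e, he.2, fun d hd hd0 => hmin d ⟨hd, hd0⟩⟩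
  · exact ⟨1, one_pos, fun d hd hd0 => (hne ⟨d, hd, hd0⟩).elim⟩

theorem pf_MET : T_MET := by
  intro ι ar Z _ x hx
  constructor
  · rintro ⟨S, p, hp, rfl⟩
    refine ⟨fun i => dist_self _, fun i j h => hp.1 (eq_of_dist_eq_zero h),
      fun i j => dist_comm _ _, fun i j k => dist_triangle _ _ _⟩
  · rintro ⟨h0, h1, h2, h3⟩
    letI : MetricSpace MetPt := metMetric x h0 h1 h2 h3
    obtain ⟨ε, hε, hmin⟩ := met_eps hx
    have hd : ∀ a b : MetPt, dist a b = x.1 a.n b.n := fun a b => rfl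
    have hsep : Pairwise (fun a b : MetPt => ε ≤ dist a b) := by
      intro a b hab
      exact hmin _ ⟨a.n, b.n, (hd a b).symm⟩ (dist_pos.2 hab)
    have hbot : (inferInstance : UniformSpace MetPt) = ⊥ :=
      Metric.uniformSpace_eq_bot.2 ⟨ε, hε, hsep⟩
    haveI : DiscreteUniformity MetPt := ⟨hbot⟩
    haveI : CompleteSpace MetPt := inferInstance
    haveI : DiscreteTopology MetPt := inferInstance
    let S : MS ι ar Z :=
      { M := MetPt
        f := fun i a => x.2 i (fun j => (a j).n)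
        cont := fun i => continuous_of_discreteTopology }
    refine ⟨S, fun n => (⟨n⟩ : MetPt), ⟨?_, ?_⟩, ?_⟩
    · intro a b h
      exact congrArg MetPt.n h
    · intro a
      apply subset_closure
      exact ⟨a.n, rfl⟩
    · rfl

end Pool.Agent.H54.PM
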