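import Pool.Agent.H54.PM.Defs

/-!
# MP_def5ca_co: targets of the board `pmf_modules`
-/

set_option autoImplicit false

open scoped symmDiff

namespace Pool.Agent.H54.PM

/-! ### Words: gluing -/

/-- the hypotheses for the gluing of `W₁` and `W₂` along the words in the intersection -/
structure GH {p : ℕ} [NeZero p] (W₁ W₂ : Finset (Wd p)) : Prop where
  ne : (W₁ ∩ W₂).Nonempty
  line : ∀ i, ∀ g ∈ W₁, ∀ h ∈ W₂, ag i g h → ∃ k ∈ W₁ ∩ W₂, ag i g k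
  one : ∀ i, ∀ k ∈ W₁ ∩ W₂, ∀ k' ∈ W₁ ∩ W₂, ag i k k' → k = k'
  plane : ∀ i, ∀ g ∈ W₁, ∀ h ∈ W₂, ag2 i g h → ∃ k ∈ W₁ ∩ W₂, ag2 i g k
  pone : ∀ i, ∀ k ∈ W₁ ∩ W₂, (∀ k' ∈ W₁ ∩ W₂, ag2 i k k' → k' = k) ∨ Pla (W₁ ∆ W₂) i k
  conn : ∀ g ∈ W₂ \ W₁, ∀ h ∈ W₂ \ W₁, Relation.ReflTransGen (mv (W₂ \ W₁)) g h

/-- GLL: the lines -/
def T_GLL : Prop := ∀ (p : ℕ) [NeZero p] (W₁ W₂ : Finset (Wd p)), Good W₁ → Good W₂ →
  GH W₁ W₂ → Lin (W₁ ∆ W₂)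

/-- GLP: the planes -/
def T_GLP : Prop := ∀ (p : ℕ) [NeZero p] (W₁ W₂ : Finset (Wd p)), Good W₁ → Good W₂ →
  GH W₁ W₂ → ∀ i k, Pla (W₁ ∆ W₂) i k

/-- GLN: connectivity -/
def T_GLN : Prop := ∀ (p : ℕ) [NeZero p] (W₁ W₂ : Finset (Wd p)), Good W₁ → Good W₂ →
  GH W₁ W₂ → (W₁ ∆ W₂).Nonempty ∧
    ∀ g ∈ W₁ ∆ W₂, ∀ h ∈ W₁ ∆ W₂, Relation.ReflTransGen (mv (W₁ ∆ W₂)) g h

/-- GLC: the Euler characteristic -/
def T_GLC : Prop := ∀ (p : ℕ) [NeZero p] (W₁ W₂ : Finset (Wd p)), 3 ≤ p → Good W₁ → Good W₂ →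
  GH W₁ W₂ → cw (W₁ ∆ W₂) = cw W₁ + cw W₂ -
    (∑ i : Fin p, (((W₁ ∩ W₂).image (rs2 i)).card : ℤ)) + ((p : ℤ) - 2) * (W₁ ∩ W₂).card

/-- GLB: colourings -/
def T_GLB : Prop := ∀ (p : ℕ) [NeZero p] (W₁ W₂ : Finset (Wd p)) (f : Wd p), Good W₁ → Good W₂ →
  GH W₁ W₂ → W₁ ∩ W₂ = {f} → Bip W₁ → Bip W₂ → Bip (W₁ ∆ W₂)

/-! ### Words: cubes -/

/-- CUG: cubes are good -/
def T_CUG : Prop := ∀ (p : ℕ) [NeZero p] (a b : Wd p), 3 ≤ p → (∀ i, a i ≠ b i) →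
  Good (cube a b)

/-- CUC: the Euler characteristic and the colouring of cubes -/
def T_CUC : Prop := ∀ (p : ℕ) [NeZero p] (a b : Wd p), 4 ≤ p → (∀ i, a i ≠ b i) →
  cw (cube a b) = -(2 ^ (p - 2) * ((p : ℤ) - 4)) ∧ Bip (cube a b)

/-- ADD: gluing of a cube along one word -/
def T_ADD : Prop := ∀ (p : ℕ) [NeZero p] (W : Finset (Wd p)) (f : Wd p) (M : ℕ), 4 ≤ p →
  Good W → f ∈ W → (∀ g ∈ W, ∀ i, g i < M) →
  GH W (cube f fun _ => M) ∧ W ∩ cube f (fun _ => M) = {f}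

/-! ### Words: the family of orientable surfaces -/

/-- RRG: the sets `RR p m` are good -/
def T_RRG : Prop := ∀ (p : ℕ) [NeZero p] (m : ℕ), 5 ≤ p → 2 ≤ m → Good (RR p m)

/-- RRC: their Euler characteristic -/
def T_RRC : Prop := ∀ (p : ℕ) [NeZero p] (m : ℕ), 5 ≤ p → 2 ≤ m →
  cw (RR p m) = -(m * 2 ^ (p - 3) * ((p : ℤ) - 4))

/-- RRB: their colouring -/
def T_RRB : Prop := ∀ (p : ℕ) [NeZero p] (m : ℕ), 5 ≤ p → 2 ≤ m →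
  Bip (RR p m) ∧ ∀ g ∈ RR p m, ∀ i, g i < m

/-- ORF: all even numbers -/
def T_ORF : Prop := ∀ (p : ℕ) [NeZero p], 5 ≤ p → ∃ N : ℕ, ∀ X : ℕ, N ≤ X → Even X →
  ∃ W : Finset (Wd p), Good W ∧ Bip W ∧ cw W = -(X : ℤ)

/-! ### Words: the families of nonorientable surfaces -/

/-- the word which is `x` at the places `0` and `j`, and `y` elsewhere -/
def w2 {p : ℕ} [NeZero p] (j : Fin p) (x y : ℕ) : Wd p := fun t => if t = 0 ∨ t = j then x else y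

/-- the first two blocks -/
def WA (p : ℕ) [NeZero p] (m : ℕ) : Finset (Wd p) := RR p m ∆ cube (fun _ => 0) (fun _ => m)

/-- the three blocks -/
def WN (p : ℕ) [NeZero p] (m : ℕ) (j : Fin p) : Finset (Wd p) :=
  WA p m ∆ cube (w2 j 1 0) (w2 j m (m + 1))

/-- DBG: gluing of a cube along two words which differ at the places `0` and `j` -/
def T_DBG : Prop := ∀ (p : ℕ) [NeZero p] (W : Finset (Wd p)) (f f' : Wd p) (j : Fin p) (M : ℕ),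
  4 ≤ p → Good W → f ∈ W → f' ∈ W → j ≠ 0 → f 0 ≠ f' 0 → f j ≠ f' j →
  (∀ t, t ≠ 0 → t ≠ j → f t = f' t) →
  (∀ g ∈ W, ¬ (g 0 = f 0 ∧ g j = f' j) ∧ ¬ (g 0 = f' 0 ∧ g j = f j)) →
  (∀ g ∈ W, ∀ i, g i < M) →
  (∀ i, (∀ k ∈ W ∩ cube f (fun t => if t = 0 ∨ t = j then f' t else M),
    (∀ k' ∈ W ∩ cube f (fun t => if t = 0 ∨ t = j then f' t else M), ag2 i k k' → k' = k) ∨
    Pla (W ∆ cube f (fun t => if t = 0 ∨ t = j then f' t else M)) i k)) →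
  GH W (cube f fun t => if t = 0 ∨ t = j then f' t else M) ∧
    W ∩ cube f (fun t => if t = 0 ∨ t = j then f' t else M) = {f, f'}

/-- SPL: the special plane -/
def T_SPL : Prop := ∀ (p : ℕ) [NeZero p] (m : ℕ), 5 ≤ p → 2 ≤ m →
  Pla (WN p m (Fin.ofNat p 1)) 0 (w2 (Fin.ofNat p 1) 1 0)

/-- NG1, NG3: the sets are good -/
def T_NG1 : Prop := ∀ (p : ℕ) [NeZero p] (m : ℕ), 5 ≤ p → 2 ≤ m →
  Good (WN p m (Fin.ofNat p 1)) ∧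
    cw (WN p m (Fin.ofNat p 1)) = -(((m : ℤ) + 4) * 2 ^ (p - 3) * ((p : ℤ) - 4)) - 5
def T_NG3 : Prop := ∀ (p : ℕ) [NeZero p] (m : ℕ), 5 ≤ p → 2 ≤ m →
  Good (WN p m (Fin.ofNat p 3)) ∧
    cw (WN p m (Fin.ofNat p 3)) = -(((m : ℤ) + 4) * 2 ^ (p - 3) * ((p : ℤ) - 4)) - 6

/-- NNB: they contain sets without colouring -/
def T_NNB : Prop := ∀ (p : ℕ) [NeZero p] (m : ℕ) (j : Fin p), 5 ≤ p → 2 ≤ m →
  (j.val = 1 ∨ j.val = 3) → (∀ g ∈ WN p m j, ∀ i, g i ≤ m + 1) ∧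
    ∃ S ⊆ WN p m j, ¬ Bip S ∧ ∃ f ∈ WN p m j, f ∉ S

/-- NOF: all numbers -/
def T_NOF : Prop := ∀ (p : ℕ) [NeZero p], 5 ≤ p → ∃ N : ℕ, ∀ X : ℕ, N ≤ X →
  ∃ W : Finset (Wd p), Good W ∧ ¬ Bip W ∧ cw W = -(X : ℤ)

/-! ### The polygon -/

/-- PO1: the values at the vertices; inequalities -/
def T_PO1 : Prop := ∀ (p : ℕ) [NeZero p], 3 ≤ p →
  (∀ i t : Fin p, 0 ≤ el i (wv t) ∧ (el i (wv t) = 0 ↔ t = i ∨ t = i + 1)) ∧
  ∀ x : ℝ × ℝ, x ∈ PP p ↔ ∀ i : Fin p, 0 ≤ el i x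

/-- PO2: the sides -/
def T_PO2 : Prop := ∀ (p : ℕ) [NeZero p], 3 ≤ p → ∀ x ∈ PP p,
  (∀ i : Fin p, el i x = 0 ↔ x ∈ segment ℝ (wv i) (wv (i + 1))) ∧
  ∀ i j : Fin p, i ≠ j → el i x = 0 → el j x = 0 →
    (j = i + 1 ∧ x = wv j) ∨ (i = j + 1 ∧ x = wv i)

/-- PO3: coordinates at the vertices -/
def T_PO3 : Prop := ∀ (p : ℕ) [NeZero p], 3 ≤ p → ∀ i : Fin p, ∃ A : ℝ × ℝ → ℝ × ℝ,
  Continuous A ∧ (∀ x, A (el i x, el (i + 1) x) = x) ∧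
    ∀ y : ℝ × ℝ, el i (A y) = y.1 ∧ el (i + 1) (A y) = y.2

/-! ### The faces -/

/-- PTI: the points of the faces -/
def T_PTI : Prop := ∀ (p : ℕ) [NeZero p] (q : ℕ), 3 ≤ p →
  (∀ (g h : Wd p), (∀ i, g i < q) → (∀ i, h i < q) → ∀ x y : ℝ × ℝ,
    pt q g x = pt q h y ↔ x = y ∧ ∀ i, g i = h i ∨ el i x = 0) ∧
  (∀ g : Wd p, body (fc q g) = pt q g '' PP p) ∧
  (∀ g : Wd p, ∃ T : (ℝ × ℝ) →ᵃ[ℝ] Sp p q, ∀ x, T x = pt q g x) ∧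
  ∀ (g h : Wd p), (∀ i, g i < q) → (∀ i, h i < q) → fc q g = fc q h → g = h

/-- GON: the faces are `p`-gons -/
def T_GON : Prop := ∀ (p : ℕ) [NeZero p] (q : ℕ), 3 ≤ p → ∀ g : Wd p, (∀ i, g i < q) →
  IsGon p (fc q g)

/-- EDG: the edges of the faces -/
def T_EDG : Prop := ∀ (p : ℕ) [NeZero p] (q : ℕ), 3 ≤ p → ∀ g : Wd p, (∀ i, g i < q) →
  ∀ u v : Sp p q, IsEdge (fc q g) u v ↔
    ∃ t : Fin p, (u = pt q g (wv t) ∧ v = pt q g (wv (t + 1))) ∨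
      (v = pt q g (wv t) ∧ u = pt q g (wv (t + 1)))

/-- CPX: the intersections of the faces -/
def T_CPX : Prop := ∀ (p : ℕ) [NeZero p] (q : ℕ), 3 ≤ p → ∀ g h : Wd p, (∀ i, g i < q) →
  (∀ i, h i < q) → g ≠ h →
  (body (fc q g) ∩ body (fc q h) = ∅ ∨
    (∃ v, v ∈ fc q g ∧ v ∈ fc q h ∧ body (fc q g) ∩ body (fc q h) = {v}) ∨
    ∃ u v, IsEdge (fc q g) u v ∧ IsEdge (fc q h) u v ∧
      body (fc q g) ∩ body (fc q h) = segment ℝ u v) ∧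
  affineSpan ℝ (fc q g : Set (Sp p q)) ≠ affineSpan ℝ (fc q h : Set (Sp p q))

/-! ### The local structure -/

/-- FAN: the cone over a cycle -/
def T_FAN : Prop := ∀ (d : ℕ) [NeZero d], 4 ≤ d → Nonempty (Fan d ≃ₜ EuclideanSpace ℝ (Fin 2))

/-- cyclic enumerations of the words in a plane -/
structure Cyc {p : ℕ} [NeZero p] (W : Finset (Wd p)) (i : Fin p) (g : Wd p) (d : ℕ) [NeZero d]
    (h : Fin d → Wd p) : Prop where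
  even : Even d
  inj : Function.Injective h
  mem : ∀ k, k ∈ W ∧ ag2 i g k ↔ ∃ n, h n = k
  fst : ∀ n : Fin d, Even n.val → ag i (h n) (h (n + 1))
  snd : ∀ n : Fin d, ¬ Even n.val → ag (i + 1) (h n) (h (n + 1))

/-- CYC: they exist -/
def T_CYC : Prop := ∀ (p : ℕ) [NeZero p] (W : Finset (Wd p)), 3 ≤ p → Good W → ∀ (i : Fin p),
  ∀ g ∈ W, ∃ (d : ℕ) (_ : NeZero d) (h : Fin d → Wd p), 4 ≤ d ∧ Cyc W i g d h

/-- LOC: the surface near a vertex -/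
def T_LOC : Prop := ∀ (p : ℕ) [NeZero p] (q : ℕ) (W : Finset (Wd p)), 3 ≤ p → Good W →
  (∀ g ∈ W, ∀ i, g i < q) → ∀ (i : Fin p), ∀ g ∈ W, ∀ (d : ℕ) [NeZero d] (h : Fin d → Wd p),
  4 ≤ d → Cyc W i g d h → ∃ e : OpenPartialHomeomorph (Un (fam q W)) (Fan d),
    ∀ x : Un (fam q W), x.1 ∈ Nb q W i g → x ∈ e.source

/-- MFD: the surface is a manifold -/
def T_MFD : Prop := ∀ (p : ℕ) [NeZero p] (q : ℕ) (W : Finset (Wd p)), 3 ≤ p → Good W →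
  (∀ g ∈ W, ∀ i, g i < q) → ∀ x : Un (fam q W),
    ∃ e : OpenPartialHomeomorph (Un (fam q W)) (EuclideanSpace ℝ (Fin 2)), x ∈ e.source

/-! ### Global properties -/

/-- CNT: the numbers of vertices, edges and faces -/
def T_CNT : Prop := ∀ (p : ℕ) [NeZero p] (q : ℕ) (W : Finset (Wd p)), 3 ≤ p →
  (∀ g ∈ W, ∀ i, g i < q) →
  (ver (fam q W)).ncard = nV W ∧ (edg (fam q W)).ncard = nE W ∧ (fam q W).card = W.card

/-- ORI: orientability -/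
def T_ORI : Prop := ∀ (p : ℕ) [NeZero p] (q : ℕ) (W : Finset (Wd p)), 3 ≤ p → Good W →
  (∀ g ∈ W, ∀ i, g i < q) → (Ori (fam q W) ↔ Bip W)

/-- CON: connectivity -/
def T_CON : Prop := ∀ (p : ℕ) [NeZero p] (q : ℕ) (W : Finset (Wd p)), 3 ≤ p → Good W →
  (∀ g ∈ W, ∀ i, g i < q) → IsConnected (Un (fam q W))

/-- GEO: the surface of a good set of words -/
def T_GEO : Prop := ∀ (p : ℕ) [NeZero p] (q : ℕ) (W : Finset (Wd p)), 3 ≤ p → Good W →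
  (∀ g ∈ W, ∀ i, g i < q) → IsPM (fam q W) ∧ IsConnected (Un (fam q W)) ∧
    (∀ A ∈ fam q W, IsGon p A) ∧ chi (fam q W) = cw W ∧ (Ori (fam q W) ↔ Bip W)

/-! ### Projections -/

/-- PRJ: linear maps which are injective on finitely many small subspaces -/
def T_PRJ : Prop := ∀ (E : Type) [NormedAddCommGroup E] [NormedSpace ℝ E] [FiniteDimensional ℝ E]
  (S : Finset (Submodule ℝ E)), (∀ V ∈ S, Module.finrank ℝ V ≤ 5) →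
  ∃ L : E →L[ℝ] EuclideanSpace ℝ (Fin 5), ∀ V ∈ S, ∀ x ∈ V, L x = 0 → x = 0

section

variable {E G : Type} [NormedAddCommGroup E] [NormedSpace ℝ E] [NormedAddCommGroup G]
  [NormedSpace ℝ G]

open Classical in
/-- the image of a set of polygons -/
noncomputable def imf (L : E →L[ℝ] G) (F : Finset (Finset E)) : Finset (Finset G) :=
  F.image fun A => A.image L

/-- `L` is injective on the affine span of any two polygons -/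
def Inj2 (L : E →L[ℝ] G) (F : Finset (Finset E)) : Prop :=
  ∀ A ∈ F, ∀ B ∈ F, ∀ x ∈ vectorSpan ℝ ((A : Set E) ∪ (B : Set E)), L x = 0 → x = 0

end

open Classical in
/-- TR1: polygons and edges -/
def T_TR1 : Prop := ∀ (E G : Type) [NormedAddCommGroup E] [NormedSpace ℝ E]
  [NormedAddCommGroup G] [NormedSpace ℝ G] [FiniteDimensional ℝ G] (L : E →L[ℝ] G) (A : Finset E),
  (∀ x ∈ vectorSpan ℝ (A : Set E), L x = 0 → x = 0) →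
  (∀ k, IsGon k A → IsGon k (A.image L)) ∧ body (A.image L) = L '' body A ∧
  ∀ u ∈ A, ∀ v ∈ A, (IsEdge (A.image L) (L u) (L v) ↔ IsEdge A u v)

/-- TR2: the complex -/
def T_TR2 : Prop := ∀ (E G : Type) [NormedAddCommGroup E] [NormedSpace ℝ E]
  [NormedAddCommGroup G] [NormedSpace ℝ G] [FiniteDimensional ℝ G] (L : E →L[ℝ] G)
  (F : Finset (Finset E)), Inj2 L F → IsPM F →
  (∀ A ∈ imf L F, ∀ B ∈ imf L F, A ≠ B → body A ∩ body B = ∅ ∨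
    (∃ v, v ∈ A ∧ v ∈ B ∧ body A ∩ body B = {v}) ∨
    ∃ u v, IsEdge A u v ∧ IsEdge B u v ∧ body A ∩ body B = segment ℝ u v) ∧
  ∀ A ∈ imf L F, ∀ B ∈ imf L F, A ≠ B → ∀ u v, IsEdge A u v → IsEdge B u v →
    affineSpan ℝ (A : Set G) ≠ affineSpan ℝ (B : Set G)

/-- TR3: the union -/
def T_TR3 : Prop := ∀ (E G : Type) [NormedAddCommGroup E] [NormedSpace ℝ E]
  [NormedAddCommGroup G] [NormedSpace ℝ G] [FiniteDimensional ℝ G] (L : E →L[ℝ] G)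
  (F : Finset (Finset E)), Inj2 L F → Nonempty (Un (imf L F) ≃ₜ Un F)

/-- TR4: Euler characteristic and orientability -/
def T_TR4 : Prop := ∀ (E G : Type) [NormedAddCommGroup E] [NormedSpace ℝ E]
  [NormedAddCommGroup G] [NormedSpace ℝ G] [FiniteDimensional ℝ G] (L : E →L[ℝ] G)
  (F : Finset (Finset E)), Inj2 L F → chi (imf L F) = chi F ∧ (Ori (imf L F) ↔ Ori F)

/-- TRF: polyhedral manifolds in `ℝ⁵` -/
def T_TRF : Prop := ∀ (E : Type) [NormedAddCommGroup E] [NormedSpace ℝ E] [FiniteDimensional ℝ E]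
  (F : Finset (Finset E)) (p : ℕ), IsPM F → IsConnected (Un F) → (∀ A ∈ F, IsGon p A) →
  ∃ F' : Finset (Finset (EuclideanSpace ℝ (Fin 5))), IsPM F' ∧ IsConnected (Un F') ∧
    (∀ A ∈ F', IsGon p A) ∧ chi F' = chi F ∧ (Ori F' ↔ Ori F)

/-! ### The theorem -/

/-- FIN -/
def T_FIN : Prop := ∀ p : ℕ, 5 ≤ p → ∃ N : ℕ, ∀ X : ℤ, X ≤ -N →
  (∃ F : Finset (Finset (EuclideanSpace ℝ (Fin 5))), IsPM F ∧ IsConnected (Un F) ∧
    (∀ A ∈ F, IsGon p A) ∧ chi F = X ∧ ¬ Ori F) ∧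
  (Even X → ∃ F : Finset (Finset (EuclideanSpace ℝ (Fin 5))), IsPM F ∧ IsConnected (Un F) ∧
    (∀ A ∈ F, IsGon p A) ∧ chi F = X ∧ Ori F)

end Pool.Agent.H54.PM
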